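import Pool.Agent.H685R2.Poly.Lists

/-!
Reading a unary number at the beginning of a string and blocks of equal length in a string.
-/

set_option linter.unusedSectionVars false

namespace Pool.Agent.H685R2.Poly

/-- one step of counting the leading ones -/
def leadStep (s : Bool × ℕ) (b : Bool) : Bool × ℕ :=
  if s.1 = true then (if b = true then (true, s.2 + 1) else (false, s.2)) else s

/-- the number of leading ones -/
def lead (x : List Bool) : ℕ := (x.foldl leadStep (true, 0)).2

theorem leadStep_false (l : List Bool) (k : ℕ) : l.foldl leadStep (false, k) = (false, k) := by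
  induction l with
  | nil => rfl
  | cons b l ih => rw [List.foldl_cons]; exact ih

theorem lead_fold (n : ℕ) (l : List Bool) : ∀ k : ℕ,
    (List.replicate n true ++ false :: l).foldl leadStep (true, k) = (false, k + n) := by
  induction n with
  | zero =>
      intro k
      rw [List.replicate_zero, List.nil_append, List.foldl_cons]
      exact leadStep_false l k
  | succ n ih =>
      intro k
      rw [List.replicate_succ, List.cons_append, List.foldl_cons]
      have : leadStep (true, k) true = (true, k + 1) := rfl
      rw [this, ih]
      congr 1
      omega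

theorem lead_eq (n : ℕ) (l : List Bool) : lead (List.replicate n true ++ false :: l) = n := by
  rw [lead, lead_fold]
  simp

/-- the string after the leading ones and one more bit -/
def rest (x : List Bool) : List Bool := x.drop (lead x + 1)

theorem rest_eq (n : ℕ) (l : List Bool) : rest (List.replicate n true ++ false :: l) = l := by
  rw [rest, lead_eq]
  have : (List.replicate n true ++ false :: l) = (List.replicate n true ++ [false]) ++ l := by
    simp
  rw [this, List.drop_left']
  simp

section

variable {α β γ : Type} [DEnc α] [DEnc β] [DEnc γ]

theorem PF.lead {x : γ → List Bool} (hx : PF x) : PF (fun c => Poly.lead (x c)) := by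
  obtain ⟨r, hr⟩ := hx.size
  have h1 : PF (fun p : γ × ((Bool × ℕ) × Bool) => leadStep p.2.1 p.2.2) := by
    have : PF (fun q : (Bool × ℕ) × Bool => leadStep q.1 q.2) :=
      PF.ite (PF.fst PF.fst') (PF.ite PF.snd'
        (PF.pair (PF.const true) (PF.succ (PF.snd PF.fst')))
        (PF.pair (PF.const false) (PF.snd PF.fst'))) PF.fst'
    exact PF.comp this PF.snd'
  refine PF.snd (PF.foldl (f := fun p : γ × ((Bool × ℕ) × Bool) => leadStep p.2.1 p.2.2) hx
    (PF.const (true, 0)) h1 ⟨2 * r + 5, ?_⟩)
  intro c l1 l2 h
  have h2 : ∀ (l : List Bool) (s : Bool × ℕ), (l.foldl leadStep s).2 ≤ s.2 + l.length := by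
    intro l
    induction l with
    | nil => intro s; simp
    | cons b l ih =>
        intro s
        rw [List.foldl_cons, List.length_cons]
        have h3 := ih (leadStep s b)
        have h4 : (leadStep s b).2 ≤ s.2 + 1 := by
          rcases s with ⟨_ | _, k⟩ <;> cases b <;> simp [leadStep]
        omega
  have h3 := h2 l1 (true, 0)
  have h4 := length_le_dsize (x c)
  have h5 := hr c
  rw [h, List.length_append] at h4
  rw [h] at h5
  change dsize (l1.foldl leadStep (true, 0)) ≤ _
  rw [dsize_pair, dsize_nat]
  have h6 := dsize_bool (l1.foldl leadStep (true, 0)).1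
  simp only [Polynomial.eval_add, Polynomial.eval_mul, Polynomial.eval_ofNat]
  simp only [zero_add] at h3
  omega

theorem PF.rest {x : γ → List Bool} (hx : PF x) : PF (fun c => Poly.rest (x c)) :=
  PF.drop (PF.succ (PF.lead hx)) hx

end

/-! Blocks. -/

theorem length_flatMap_const {α β : Type} (l : List α) (r : α → List β) (k : ℕ)
    (h : ∀ a ∈ l, (r a).length = k) : (l.flatMap r).length = l.length * k := by
  induction l with
  | nil => simp
  | cons a l ih =>
      rw [List.flatMap_cons, List.length_append, List.length_cons, Nat.succ_mul,
        h a List.mem_cons_self, ih fun b hb => h b (List.mem_cons_of_mem _ hb)]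
      omega

theorem block_eq {β : Type} (n k : ℕ) (r : ℕ → List β) (tl : List β)
    (h : ∀ u < n, (r u).length = k) {u : ℕ} (hu : u < n) :
    (((List.range n).flatMap r ++ tl).drop (u * k)).take k = r u := by
  obtain ⟨d, rfl⟩ := Nat.exists_eq_add_of_lt hu
  have e1 : List.range (u + d + 1) = List.range u ++ u :: (List.range d).map (u + 1 + ·) := by
    have : u + d + 1 = (u + 1) + d := by omega
    rw [this, List.range_add, List.range_succ]
    simp
  rw [e1, List.flatMap_append, List.flatMap_cons]
  have hlen : ((List.range u).flatMap r).length = u * k := by
    rw [length_flatMap_const _ _ k, List.length_range]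
    intro a ha
    rw [List.mem_range] at ha
    exact h a (by omega)
  rw [List.append_assoc, List.append_assoc, List.drop_left' hlen, List.take_left' (h u hu)]

theorem finRange_map {β : Type} (n : ℕ) (g : ℕ → β) :
    (List.finRange n).map (fun i : Fin n => g i) = (List.range n).map g := by
  rw [← List.map_coe_finRange_eq_range, List.map_map]
  rfl

theorem finRange_flatMap {β : Type} (n : ℕ) (g : ℕ → List β) :
    (List.finRange n).flatMap (fun i : Fin n => g i) = (List.range n).flatMap g := by
  rw [List.flatMap_def, List.flatMap_def, ← finRange_map]

end Pool.Agent.H685R2.Poly
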