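import Mathlib

/-!
Composition of functions computable in polynomial time by Mathlib's Turing machines with stacks.
-/

set_option linter.unusedSectionVars false
set_option linter.unusedSimpArgs false

namespace Pool.Agent.H685R2.Poly

open Turing StateTransition

theorem eval_mono' (p : Polynomial ℕ) {a b : ℕ} (h : a ≤ b) : p.eval a ≤ p.eval b := by
  rw [Polynomial.eval_eq_sum_range, Polynomial.eval_eq_sum_range]
  gcongr

/-- the largest number of push operations in one execution of the statement -/
def numPush {K : Type} {Γ : K → Type} {Λ σ : Type} : TM2.Stmt Γ Λ σ → ℕ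
  | .push _ _ q => numPush q + 1
  | .peek _ _ q => numPush q
  | .pop _ _ q => numPush q
  | .load _ q => numPush q
  | .branch _ q₁ q₂ => max (numPush q₁) (numPush q₂)
  | .goto _ => 0
  | .halt => 0

theorem length_stepAux {K : Type} [DecidableEq K] {Γ : K → Type} {Λ σ : Type} (k : K)
    (q : TM2.Stmt Γ Λ σ) : ∀ (v : σ) (S : ∀ k, List (Γ k)),
    ((TM2.stepAux q v S).stk k).length ≤ (S k).length + numPush q := by
  induction q with
  | push k' f q ih =>
      intro v S
      refine (ih v _).trans ?_
      rw [numPush]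
      by_cases h : k = k'
      · subst h
        rw [Function.update_self]
        simp
        omega
      · rw [Function.update_of_ne h]
        omega
  | peek k' f q ih => intro v S; exact ih _ S
  | pop k' f q ih =>
      intro v S
      refine (ih _ _).trans ?_
      rw [numPush]
      by_cases h : k = k'
      · subst h
        rw [Function.update_self]
        simp
      · rw [Function.update_of_ne h]
  | load a q ih => intro v S; exact ih _ S
  | branch f q₁ q₂ ih₁ ih₂ =>
      intro v S
      rw [numPush, TM2.stepAux]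
      cases f v
      · exact (ih₂ v S).trans (by simp)
      · exact (ih₁ v S).trans (by simp)
  | goto l => intro v S; simp [TM2.stepAux, numPush]
  | halt => intro v S; simp [TM2.stepAux, numPush]

/-- bound for the number of push operations in a step -/
def FinTM2.maxPush (tm : FinTM2) : ℕ :=
  have := tm.ΛFin
  Finset.univ.sup fun l => numPush (tm.m l)

theorem bind_none_iterate {σ : Type} (f : σ → Option σ) (n : ℕ) :
    (flip bind f)^[n] none = none := by
  induction n with
  | zero => rfl
  | succ n ih => rw [Function.iterate_succ_apply]; exact ih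

theorem length_steps (tm : FinTM2) (k : tm.K) (n : ℕ) : ∀ (c c' : tm.Cfg),
    (flip bind tm.step)^[n] (some c) = some c' →
    (c'.stk k).length ≤ (c.stk k).length + n * FinTM2.maxPush tm := by
  induction n with
  | zero =>
      intro c c' h
      rw [Function.iterate_zero_apply, Option.some.injEq] at h
      subst h
      simp
  | succ n ih =>
      intro c c' h
      rw [Function.iterate_succ_apply] at h
      rcases c with ⟨_ | l, v, S⟩
      · have h1 : flip bind tm.step (some (⟨none, v, S⟩ : tm.Cfg)) = none := rfl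
        rw [h1, bind_none_iterate] at h
        cases h
      · have h1 : flip bind tm.step (some (⟨some l, v, S⟩ : tm.Cfg)) =
            some (TM2.stepAux (tm.m l) v S) := rfl
        rw [h1] at h
        have h2 := ih _ _ h
        have h3 := length_stepAux k (tm.m l) v S
        have h4 : numPush (tm.m l) ≤ FinTM2.maxPush tm :=
          @Finset.le_sup _ _ _ _ (@Finset.univ tm.Λ tm.ΛFin) (fun l => numPush (tm.m l)) l
            (@Finset.mem_univ _ tm.ΛFin l)
        rw [Nat.succ_mul]
        exact h2.trans (by simp only; omega)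

section comp

variable (M₁ M₂ : FinTM2) {B : Type} [Inhabited B] (e₁ : M₁.Γ M₁.k₁ ≃ B) (e₂ : M₂.Γ M₂.k₀ ≃ B)

/-- stacks of the composed machine -/
abbrev CK : Type := M₁.K ⊕ (M₂.K ⊕ Unit)

/-- stack alphabets of the composed machine -/
abbrev CΓ (B : Type) : CK M₁ M₂ → Type
  | .inl k => M₁.Γ k
  | .inr (.inl k) => M₂.Γ k
  | .inr (.inr _) => B

/-- labels of the composed machine -/
abbrev CΛ : Type := M₁.Λ ⊕ (M₂.Λ ⊕ Bool)

/-- internal states of the composed machine -/
abbrev Cσ (B : Type) : Type := M₁.σ × (M₂.σ × Option B)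

instance : DecidableEq (CK M₁ M₂) := by
  have := M₁.kDecidableEq
  have := M₂.kDecidableEq
  infer_instance

/-- contents of the stacks -/
def emb {M₁ M₂ : FinTM2} {B : Type} (S : ∀ k, List (M₁.Γ k)) (T : ∀ k, List (M₂.Γ k))
    (A : List B) : ∀ k : CK M₁ M₂, List (CΓ M₁ M₂ B k)
  | .inl k => S k
  | .inr (.inl k) => T k
  | .inr (.inr _) => A

theorem update_emb_inl {M₁ M₂ : FinTM2} {B : Type} (S : ∀ k, List (M₁.Γ k))
    (T : ∀ k, List (M₂.Γ k)) (A : List B) (k : M₁.K) (l : List (M₁.Γ k)) :
    Function.update (emb S T A) (.inl k) l = emb (Function.update S k l) T A := by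
  funext k'
  rcases k' with k' | k' | k'
  · by_cases h : k' = k
    · subst h
      rw [Function.update_self]
      simp only [emb, Function.update_self]
    · rw [Function.update_of_ne (fun hh => h (Sum.inl.inj hh))]
      simp only [emb, Function.update_of_ne h]
  · rw [Function.update_of_ne (by simp)]
    rfl
  · rw [Function.update_of_ne (by simp)]
    rfl

theorem update_emb_inr {M₁ M₂ : FinTM2} {B : Type} (S : ∀ k, List (M₁.Γ k))
    (T : ∀ k, List (M₂.Γ k)) (A : List B) (k : M₂.K) (l : List (M₂.Γ k)) :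
    Function.update (emb S T A) (.inr (.inl k)) l = emb S (Function.update T k l) A := by
  funext k'
  rcases k' with k' | k' | k'
  · rw [Function.update_of_ne (by simp)]
    rfl
  · by_cases h : k' = k
    · subst h
      rw [Function.update_self]
      simp only [emb, Function.update_self]
    · rw [Function.update_of_ne (fun hh => h (Sum.inl.inj (Sum.inr.inj hh)))]
      simp only [emb, Function.update_of_ne h]
  · rw [Function.update_of_ne (by simp)]
    rfl

theorem update_emb_aux {M₁ M₂ : FinTM2} {B : Type} (S : ∀ k, List (M₁.Γ k))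
    (T : ∀ k, List (M₂.Γ k)) (A A' : List B) (u : Unit) :
    Function.update (emb S T A) (.inr (.inr u)) A' = emb S T A' := by
  funext k'
  rcases k' with k' | k' | k'
  · rw [Function.update_of_ne (by simp)]
    rfl
  · rw [Function.update_of_ne (by simp)]
    rfl
  · obtain rfl : k' = u := rfl
    rw [Function.update_self]
    rfl

/-- the statements of the first machine -/
def tr₁ : TM2.Stmt M₁.Γ M₁.Λ M₁.σ → TM2.Stmt (CΓ M₁ M₂ B) (CΛ M₁ M₂) (Cσ M₁ M₂ B)
  | .push k f q => .push (.inl k) (fun s => f s.1) (tr₁ q)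
  | .peek k f q => .peek (.inl k) (fun s o => (f s.1 o, s.2)) (tr₁ q)
  | .pop k f q => .pop (.inl k) (fun s o => (f s.1 o, s.2)) (tr₁ q)
  | .load a q => .load (fun s => (a s.1, s.2)) (tr₁ q)
  | .branch p q₁ q₂ => .branch (fun s => p s.1) (tr₁ q₁) (tr₁ q₂)
  | .goto l => .goto (fun s => .inl (l s.1))
  | .halt => .goto (fun _ => .inr (.inr false))

/-- the statements of the second machine -/
def tr₂ : TM2.Stmt M₂.Γ M₂.Λ M₂.σ → TM2.Stmt (CΓ M₁ M₂ B) (CΛ M₁ M₂) (Cσ M₁ M₂ B)
  | .push k f q => .push (.inr (.inl k)) (fun s => f s.2.1) (tr₂ q)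
  | .peek k f q => .peek (.inr (.inl k)) (fun s o => (s.1, (f s.2.1 o, s.2.2))) (tr₂ q)
  | .pop k f q => .pop (.inr (.inl k)) (fun s o => (s.1, (f s.2.1 o, s.2.2))) (tr₂ q)
  | .load a q => .load (fun s => (s.1, (a s.2.1, s.2.2))) (tr₂ q)
  | .branch p q₁ q₂ => .branch (fun s => p s.2.1) (tr₂ q₁) (tr₂ q₂)
  | .goto l => .goto (fun s => .inr (.inl (l s.2.1)))
  | .halt => .halt

/-- the program of the composed machine -/
def cm : CΛ M₁ M₂ → TM2.Stmt (CΓ M₁ M₂ B) (CΛ M₁ M₂) (Cσ M₁ M₂ B)
  | .inl l => tr₁ M₁ M₂ (M₁.m l)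
  | .inr (.inl l) => tr₂ M₁ M₂ (M₂.m l)
  | .inr (.inr false) =>
      .pop (.inl M₁.k₁) (fun s o => (s.1, (s.2.1, o.map e₁)))
        (.branch (fun s => s.2.2.isSome)
          (.push (.inr (.inr ())) (fun s => s.2.2.getD default)
            (.goto (fun _ => .inr (.inr false))))
          (.goto (fun _ => .inr (.inr true))))
  | .inr (.inr true) =>
      .pop (.inr (.inr ())) (fun s o => (s.1, (s.2.1, o)))
        (.branch (fun s => s.2.2.isSome)
          (.push (.inr (.inl M₂.k₀)) (fun s => e₂.symm (s.2.2.getD default))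
            (.goto (fun _ => .inr (.inr true))))
          (.goto (fun _ => .inr (.inl M₂.main))))

/-- the composed machine -/
noncomputable def compTM : FinTM2 :=
  have := M₁.kDecidableEq
  have := M₂.kDecidableEq
  have := M₁.kFin
  have := M₂.kFin
  have := M₁.ΛFin
  have := M₂.ΛFin
  have := M₁.σFin
  have := M₂.σFin
  have := M₂.Γk₀Fin
  have : Fintype B := Fintype.ofEquiv _ e₂
  { K := CK M₁ M₂
    kDecidableEq := inferInstance
    kFin := inferInstance
    k₀ := .inl M₁.k₀
    k₁ := .inr (.inl M₂.k₁)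
    Γ := CΓ M₁ M₂ B
    Λ := CΛ M₁ M₂
    main := .inl M₁.main
    ΛFin := inferInstance
    σ := Cσ M₁ M₂ B
    initialState := (M₁.initialState, (M₂.initialState, none))
    σFin := inferInstance
    Γk₀Fin := M₁.Γk₀Fin
    m := cm M₁ M₂ e₁ e₂ }

/-- configurations -/
abbrev CCfg (B : Type) : Type := TM2.Cfg (CΓ M₁ M₂ B) (CΛ M₁ M₂) (Cσ M₁ M₂ B)

/-- configurations during the run of the first machine -/
def E₁ (B : Type) (c : TM2.Cfg M₁.Γ M₁.Λ M₁.σ) : CCfg M₁ M₂ B :=
  ⟨some (match c.l with
      | some l => .inl l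
      | none => .inr (.inr false)),
    (c.var, (M₂.initialState, none)), emb c.stk (fun _ => []) []⟩

/-- configurations during the run of the second machine -/
def E₂ (B : Type) (c : TM2.Cfg M₂.Γ M₂.Λ M₂.σ) : CCfg M₁ M₂ B :=
  ⟨c.l.map (fun l => .inr (.inl l)),
    (M₁.initialState, (c.var, none)), emb (fun _ => []) c.stk []⟩

theorem stepAux_tr₁ (q : TM2.Stmt M₁.Γ M₁.Λ M₁.σ) : ∀ (v : M₁.σ) (S : ∀ k, List (M₁.Γ k)),
    TM2.stepAux (tr₁ M₁ M₂ q) (v, (M₂.initialState, none)) (emb S (fun _ => []) []) =
      E₁ M₁ M₂ B (TM2.stepAux q v S) := by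
  induction q with
  | push k f q ih =>
      intro v S
      rw [tr₁, TM2.stepAux, TM2.stepAux, ← ih, update_emb_inl]
      rfl
  | peek k f q ih => intro v S; exact ih _ S
  | pop k f q ih =>
      intro v S
      rw [tr₁, TM2.stepAux, TM2.stepAux, ← ih, update_emb_inl]
      rfl
  | load a q ih => intro v S; exact ih _ S
  | branch f q₁ q₂ ih₁ ih₂ =>
      intro v S
      rw [tr₁, TM2.stepAux, TM2.stepAux]
      cases h : f v
      · simp only [h, cond_false]
        exact ih₂ v S
      · simp only [h, cond_true]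
        exact ih₁ v S
  | goto l => intro v S; rfl
  | halt => intro v S; rfl

theorem stepAux_tr₂ (q : TM2.Stmt M₂.Γ M₂.Λ M₂.σ) : ∀ (v : M₂.σ) (S : ∀ k, List (M₂.Γ k)),
    TM2.stepAux (tr₂ M₁ M₂ q) (M₁.initialState, (v, none)) (emb (fun _ => []) S []) =
      E₂ M₁ M₂ B (TM2.stepAux q v S) := by
  induction q with
  | push k f q ih =>
      intro v S
      rw [tr₂, TM2.stepAux, TM2.stepAux, ← ih, update_emb_inr]
      rfl
  | peek k f q ih => intro v S; exact ih _ S
  | pop k f q ih =>
      intro v S
      rw [tr₂, TM2.stepAux, TM2.stepAux, ← ih, update_emb_inr]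
      rfl
  | load a q ih => intro v S; exact ih _ S
  | branch f q₁ q₂ ih₁ ih₂ =>
      intro v S
      rw [tr₂, TM2.stepAux, TM2.stepAux]
      cases h : f v
      · simp only [h, cond_false]
        exact ih₂ v S
      · simp only [h, cond_true]
        exact ih₁ v S
  | goto l => intro v S; rfl
  | halt => intro v S; rfl

/-- `n` steps of the composed machine -/
def CSteps (n : ℕ) (c c' : CCfg M₁ M₂ B) : Prop :=
  (flip bind (TM2.step (cm M₁ M₂ e₁ e₂)))^[n] (some c) = some c'

theorem CSteps.trans {n n' : ℕ} {c c' c'' : CCfg M₁ M₂ B} (h : CSteps M₁ M₂ e₁ e₂ n c c')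
    (h' : CSteps M₁ M₂ e₁ e₂ n' c' c'') : CSteps M₁ M₂ e₁ e₂ (n' + n) c c'' := by
  unfold CSteps at *
  rw [Function.iterate_add_apply, h, h']

theorem run₁ (n : ℕ) : ∀ (c c' : M₁.Cfg), (flip bind M₁.step)^[n] (some c) = some c' →
    CSteps M₁ M₂ e₁ e₂ n (E₁ M₁ M₂ B c) (E₁ M₁ M₂ B c') := by
  induction n with
  | zero =>
      intro c c' h
      rw [Function.iterate_zero_apply, Option.some.injEq] at h
      subst h
      rfl
  | succ n ih =>
      intro c c' h
      rw [Function.iterate_succ_apply] at h
      rcases c with ⟨_ | l, v, S⟩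
      · have h1 : flip bind M₁.step (some (⟨none, v, S⟩ : M₁.Cfg)) = none := rfl
        rw [h1, bind_none_iterate] at h
        cases h
      · have h1 : flip bind M₁.step (some (⟨some l, v, S⟩ : M₁.Cfg)) =
            some (TM2.stepAux (M₁.m l) v S) := rfl
        rw [h1] at h
        have h2 := ih _ _ h
        refine CSteps.trans M₁ M₂ e₁ e₂ (n := 1) ?_ h2
        have h3 := stepAux_tr₁ M₁ M₂ (B := B) (M₁.m l) v S
        exact congrArg some h3

theorem run₂ (n : ℕ) : ∀ (c c' : M₂.Cfg), (flip bind M₂.step)^[n] (some c) = some c' →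
    CSteps M₁ M₂ e₁ e₂ n (E₂ M₁ M₂ B c) (E₂ M₁ M₂ B c') := by
  induction n with
  | zero =>
      intro c c' h
      rw [Function.iterate_zero_apply, Option.some.injEq] at h
      subst h
      rfl
  | succ n ih =>
      intro c c' h
      rw [Function.iterate_succ_apply] at h
      rcases c with ⟨_ | l, v, S⟩
      · have h1 : flip bind M₂.step (some (⟨none, v, S⟩ : M₂.Cfg)) = none := rfl
        rw [h1, bind_none_iterate] at h
        cases h
      · have h1 : flip bind M₂.step (some (⟨some l, v, S⟩ : M₂.Cfg)) =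
            some (TM2.stepAux (M₂.m l) v S) := rfl
        rw [h1] at h
        have h2 := ih _ _ h
        refine CSteps.trans M₁ M₂ e₁ e₂ (n := 1) ?_ h2
        have h3 := stepAux_tr₂ M₁ M₂ (B := B) (M₂.m l) v S
        exact congrArg some h3

/-- stacks of the first machine: only the output stack is nonempty -/
def only₁ (l : List (M₁.Γ M₁.k₁)) : ∀ k, List (M₁.Γ k) :=
  have := M₁.kDecidableEq
  Function.update (fun _ => []) M₁.k₁ l

/-- stacks of the second machine: only the input stack is nonempty -/
def only₂ (l : List (M₂.Γ M₂.k₀)) : ∀ k, List (M₂.Γ k) :=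
  have := M₂.kDecidableEq
  Function.update (fun _ => []) M₂.k₀ l

theorem transfer₁ (y : List B) : ∀ (A : List B) (T : ∀ k, List (M₂.Γ k)),
    CSteps M₁ M₂ e₁ e₂ (y.length + 1)
      ⟨some (.inr (.inr false)), (M₁.initialState, (M₂.initialState, none)),
        emb (only₁ M₁ (y.map e₁.symm)) T A⟩
      ⟨some (.inr (.inr true)), (M₁.initialState, (M₂.initialState, none)),
        emb (fun _ => []) T (y.reverse ++ A)⟩ := by
  suffices hgen : ∀ (y : List B) (o : Option B) (A : List B) (T : ∀ k, List (M₂.Γ k)),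
      CSteps M₁ M₂ e₁ e₂ (y.length + 1)
      ⟨some (.inr (.inr false)), (M₁.initialState, (M₂.initialState, o)),
        emb (only₁ M₁ (y.map e₁.symm)) T A⟩
      ⟨some (.inr (.inr true)), (M₁.initialState, (M₂.initialState, none)),
        emb (fun _ => []) T (y.reverse ++ A)⟩ from hgen y none
  intro y
  induction y with
  | nil =>
      intro o A T
      have h0 : only₁ M₁ (([] : List B).map e₁.symm) = fun _ => [] := by
        rw [only₁]
        exact Function.update_eq_self M₁.k₁ (fun _ => [])
      rw [h0]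
      unfold CSteps
      rw [List.length_nil, zero_add, Function.iterate_one]
      refine congrArg some ?_
      simp only [TM2.step, cm, TM2.stepAux, emb, List.head?_nil, List.tail_nil, Option.map_none,
        Option.isSome_none, cond_false, List.reverse_nil, List.nil_append]
      rw [update_emb_inl]
      congr 2
  | cons b y ih =>
      intro o A T
      have h1 := ih (some b) (b :: A) T
      have e : y.reverse ++ b :: A = (b :: y).reverse ++ A := by simp
      rw [e] at h1
      refine CSteps.trans M₁ M₂ e₁ e₂ (n := 1) ?_ h1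
      unfold CSteps
      rw [Function.iterate_one]
      refine congrArg some ?_
      have h2 : (only₁ M₁ ((b :: y).map e₁.symm)) M₁.k₁ = e₁.symm b :: y.map e₁.symm := by
        rw [only₁, Function.update_self]
        rfl
      have h3 : @Function.update _ _ M₁.kDecidableEq (only₁ M₁ ((b :: y).map e₁.symm)) M₁.k₁
          (y.map e₁.symm) = only₁ M₁ (y.map e₁.symm) := by
        rw [only₁, only₁, Function.update_idem]
      simp only [TM2.step, cm, TM2.stepAux, emb, h2, List.head?_cons, List.tail_cons,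
        Option.map_some, Equiv.apply_symm_apply, Option.isSome_some, cond_true,
        Option.getD_some]
      rw [update_emb_inl, h3, update_emb_aux]
      rfl

theorem transfer₂ (y : List B) : ∀ (z : List B),
    CSteps M₁ M₂ e₁ e₂ (y.length + 1)
      ⟨some (.inr (.inr true)), (M₁.initialState, (M₂.initialState, none)),
        emb (fun _ => []) (only₂ M₂ (z.map e₂.symm)) y⟩
      ⟨some (.inr (.inl M₂.main)), (M₁.initialState, (M₂.initialState, none)),
        emb (fun _ => []) (only₂ M₂ ((y.reverse ++ z).map e₂.symm)) []⟩ := by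
  suffices hgen : ∀ (y : List B) (o : Option B) (z : List B),
      CSteps M₁ M₂ e₁ e₂ (y.length + 1)
      ⟨some (.inr (.inr true)), (M₁.initialState, (M₂.initialState, o)),
        emb (fun _ => []) (only₂ M₂ (z.map e₂.symm)) y⟩
      ⟨some (.inr (.inl M₂.main)), (M₁.initialState, (M₂.initialState, none)),
        emb (fun _ => []) (only₂ M₂ ((y.reverse ++ z).map e₂.symm)) []⟩ from hgen y none
  intro y
  induction y with
  | nil =>
      intro o z
      unfold CSteps
      rw [List.length_nil, zero_add, Function.iterate_one]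
      refine congrArg some ?_
      simp only [TM2.step, cm, TM2.stepAux, emb, List.head?_nil, List.tail_nil,
        Option.isSome_none, cond_false, List.reverse_nil, List.nil_append]
      rw [update_emb_aux]
  | cons b y ih =>
      intro o z
      have h1 := ih (some b) (b :: z)
      have e : y.reverse ++ b :: z = (b :: y).reverse ++ z := by simp
      rw [e] at h1
      refine CSteps.trans M₁ M₂ e₁ e₂ (n := 1) ?_ h1
      unfold CSteps
      rw [Function.iterate_one]
      refine congrArg some ?_
      have h2 : (only₂ M₂ (z.map e₂.symm)) M₂.k₀ = z.map e₂.symm := by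
        rw [only₂, Function.update_self]
      have h3 : @Function.update _ _ M₂.kDecidableEq (only₂ M₂ (z.map e₂.symm)) M₂.k₀
          (e₂.symm b :: z.map e₂.symm) = only₂ M₂ ((b :: z).map e₂.symm) := by
        rw [only₂, only₂, Function.update_idem]
        rfl
      simp only [TM2.step, cm, TM2.stepAux, emb, List.head?_cons, List.tail_cons,
        Option.isSome_some, cond_true, Option.getD_some]
      rw [update_emb_aux, update_emb_inr]
      simp only [emb]
      rw [h2, h3]

theorem initList_stk₁ (l : List (M₁.Γ M₁.k₀)) (k : M₁.K) :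
    ((initList M₁ l).stk k).length ≤ l.length := by
  by_cases h : k = M₁.k₀
  · subst h
    simp [initList]
  · simp [initList, h]

theorem haltList_stk₁ (l : List (M₁.Γ M₁.k₁)) : (haltList M₁ l).stk = only₁ M₁ l := by
  funext k
  by_cases h : k = M₁.k₁
  · subst h
    simp [haltList, only₁]
  · simp [haltList, only₁, h]

theorem initList_stk₂ (l : List (M₂.Γ M₂.k₀)) : (initList M₂ l).stk = only₂ M₂ l := by
  funext k
  by_cases h : k = M₂.k₀
  · subst h
    simp [initList, only₂]
  · simp [initList, only₂, h]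

theorem initList_self (tm : FinTM2) (l : List (tm.Γ tm.k₀)) :
    (initList tm l).stk tm.k₀ = l := by simp [initList]

theorem initList_ne (tm : FinTM2) (l : List (tm.Γ tm.k₀)) (k : tm.K) (h : k ≠ tm.k₀) :
    (initList tm l).stk k = [] := by simp [initList, h]

theorem haltList_self (tm : FinTM2) (l : List (tm.Γ tm.k₁)) :
    (haltList tm l).stk tm.k₁ = l := by simp [haltList]

theorem haltList_ne (tm : FinTM2) (l : List (tm.Γ tm.k₁)) (k : tm.K) (h : k ≠ tm.k₁) :
    (haltList tm l).stk k = [] := by simp [haltList, h]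

theorem E₁_init (l : List (M₁.Γ M₁.k₀)) :
    E₁ M₁ M₂ B (initList M₁ l) = initList (compTM M₁ M₂ e₁ e₂) l := by
  refine congrArg (fun S => (⟨some (.inl M₁.main), (M₁.initialState, (M₂.initialState, none)),
    S⟩ : CCfg M₁ M₂ B)) ?_
  funext k
  rcases k with k | k | k
  · by_cases h : k = M₁.k₀
    · subst h
      exact (initList_self M₁ l).trans (initList_self (compTM M₁ M₂ e₁ e₂) l).symm
    · have h' : (Sum.inl k : CK M₁ M₂) ≠ Sum.inl M₁.k₀ := fun hh => h (Sum.inl.inj hh)
      exact (initList_ne M₁ l k h).trans (initList_ne (compTM M₁ M₂ e₁ e₂) l (.inl k) h').symm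
  · have h' : (Sum.inr (Sum.inl k) : CK M₁ M₂) ≠ Sum.inl M₁.k₀ := by simp
    exact (initList_ne (compTM M₁ M₂ e₁ e₂) l (.inr (.inl k)) h').symm
  · have h' : (Sum.inr (Sum.inr k) : CK M₁ M₂) ≠ Sum.inl M₁.k₀ := by simp
    exact (initList_ne (compTM M₁ M₂ e₁ e₂) l (.inr (.inr k)) h').symm

theorem E₂_halt (l : List (M₂.Γ M₂.k₁)) :
    E₂ M₁ M₂ B (haltList M₂ l) = haltList (compTM M₁ M₂ e₁ e₂) l := by
  refine congrArg (fun S => (⟨none, (M₁.initialState, (M₂.initialState, none)),
    S⟩ : CCfg M₁ M₂ B)) ?_
  funext k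
  rcases k with k | k | k
  · have h' : (Sum.inl k : CK M₁ M₂) ≠ Sum.inr (Sum.inl M₂.k₁) := by simp
    exact (haltList_ne (compTM M₁ M₂ e₁ e₂) l (.inl k) h').symm
  · by_cases h : k = M₂.k₁
    · subst h
      exact (haltList_self M₂ l).trans (haltList_self (compTM M₁ M₂ e₁ e₂) l).symm
    · have h' : (Sum.inr (Sum.inl k) : CK M₁ M₂) ≠ Sum.inr (Sum.inl M₂.k₁) :=
        fun hh => h (Sum.inl.inj (Sum.inr.inj hh))
      exact (haltList_ne M₂ l k h).trans
        (haltList_ne (compTM M₁ M₂ e₁ e₂) l (.inr (.inl k)) h').symm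
  · have h' : (Sum.inr (Sum.inr k) : CK M₁ M₂) ≠ Sum.inr (Sum.inl M₂.k₁) := by simp
    exact (haltList_ne (compTM M₁ M₂ e₁ e₂) l (.inr (.inr k)) h').symm

/-- The composed machine computes the composition. -/
theorem comp_run {α β γ A C : Type} {ea : α → List A} {eb : β → List B}
    {ec : γ → List C} {f : α → β} {g : β → γ} (e₀ : M₁.Γ M₁.k₀ ≃ A) (e₃ : M₂.Γ M₂.k₁ ≃ C)
    (t₁ t₂ : Polynomial ℕ)
    (h₁ : ∀ a, Nonempty (TM2OutputsInTime M₁ (List.map e₀.invFun (ea a))
      (some (List.map e₁.invFun (eb (f a)))) (t₁.eval (ea a).length)))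
    (h₂ : ∀ b, Nonempty (TM2OutputsInTime M₂ (List.map e₂.invFun (eb b))
      (some (List.map e₃.invFun (ec (g b)))) (t₂.eval (eb b).length))) (a : α) :
    Nonempty (TM2OutputsInTime (compTM M₁ M₂ e₁ e₂) (List.map e₀.invFun (ea a))
      (some (List.map e₃.invFun (ec (g (f a)))))
      ((t₁ + (Polynomial.X + Polynomial.C (FinTM2.maxPush M₁) * t₁ + 1) +
        (Polynomial.X + Polynomial.C (FinTM2.maxPush M₁) * t₁ + 1) +
        t₂.comp (Polynomial.X + Polynomial.C (FinTM2.maxPush M₁) * t₁)).eval
          (ea a).length)) := by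
  obtain ⟨h1⟩ := h₁ a
  obtain ⟨h2⟩ := h₂ (f a)
  -- length of the intermediate result
  have hlen : (eb (f a)).length ≤
      (Polynomial.X + Polynomial.C (FinTM2.maxPush M₁) * t₁).eval (ea a).length := by
    have h3 := length_steps M₁ M₁.k₁ _ _ _ h1.evals_in_steps
    have h4 : ((haltList M₁ (List.map e₁.invFun (eb (f a)))).stk M₁.k₁).length =
        (eb (f a)).length := by
      simp [haltList]
    have h5 := initList_stk₁ M₁ (List.map e₀.invFun (ea a)) M₁.k₁
    rw [List.length_map] at h5
    have h6 := h1.steps_le_m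
    simp only [Polynomial.eval_add, Polynomial.eval_mul, Polynomial.eval_X, Polynomial.eval_C]
    have h7 : h1.steps * FinTM2.maxPush M₁ ≤ FinTM2.maxPush M₁ * t₁.eval (ea a).length := by
      rw [mul_comm]
      exact Nat.mul_le_mul_left _ h6
    rw [h4] at h3
    omega
  have r1 := run₁ M₁ M₂ e₁ e₂ _ _ _ h1.evals_in_steps
  have r2 := run₂ M₁ M₂ e₁ e₂ _ _ _ h2.evals_in_steps
  have s1 := transfer₁ M₁ M₂ e₁ e₂ (eb (f a)) [] (fun _ => [])
  have s2 := transfer₂ M₁ M₂ e₁ e₂ (eb (f a)).reverse []
  rw [List.append_nil] at s1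
  rw [List.length_reverse, List.reverse_reverse, List.append_nil] at s2
  have e1 : E₁ M₁ M₂ B (haltList M₁ (List.map e₁.invFun (eb (f a)))) =
      ⟨some (.inr (.inr false)), (M₁.initialState, (M₂.initialState, none)),
        emb (only₁ M₁ ((eb (f a)).map e₁.symm)) (fun _ => []) []⟩ := by
    rw [← haltList_stk₁]
    rfl
  have e2 : E₂ M₁ M₂ B (initList M₂ (List.map e₂.invFun (eb (f a)))) =
      ⟨some (.inr (.inl M₂.main)), (M₁.initialState, (M₂.initialState, none)),
        emb (fun _ => []) (only₂ M₂ ((eb (f a)).map e₂.symm)) []⟩ := by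
    rw [← initList_stk₂]
    rfl
  have e3 : only₂ M₂ (List.map e₂.symm []) = fun _ => [] := by
    rw [only₂]
    exact Function.update_eq_self M₂.k₀ (fun _ => [])
  rw [e1, E₁_init M₁ M₂ e₁ e₂] at r1
  rw [e2, E₂_halt M₁ M₂ e₁ e₂] at r2
  rw [e3] at s2
  have r := ((r1.trans M₁ M₂ e₁ e₂ s1).trans M₁ M₂ e₁ e₂ s2).trans M₁ M₂ e₁ e₂ r2
  refine ⟨⟨⟨_, r⟩, ?_⟩⟩
  have h6 := h1.steps_le_m
  have h7 := h2.steps_le_m
  have h8 := eval_mono' t₂ hlen
  simp only [Polynomial.eval_add, Polynomial.eval_mul, Polynomial.eval_X, Polynomial.eval_C,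
    Polynomial.eval_one, Polynomial.eval_comp] at hlen h8 ⊢
  omega

end comp

/-- **Composition.** If `f` and `g` are computable in polynomial time then so is `g ∘ f`. -/
theorem tm_comp {α β γ A B C : Type} [Inhabited B] {ea : α → List A} {eb : β → List B}
    {ec : γ → List C} {f : α → β} {g : β → γ} (hf : TM2ComputableInPolyTime ea eb f)
    (hg : TM2ComputableInPolyTime eb ec g) :
    Nonempty (TM2ComputableInPolyTime ea ec (fun a => g (f a))) :=
  ⟨{ tm := compTM hf.tm hg.tm hf.outputAlphabet hg.inputAlphabet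
     inputAlphabet := hf.inputAlphabet
     outputAlphabet := hg.outputAlphabet
     time := _
     outputsFun := fun a => (comp_run hf.tm hg.tm hf.outputAlphabet hg.inputAlphabet
       hf.inputAlphabet hg.outputAlphabet hf.time hg.time (fun a => ⟨hf.outputsFun a⟩)
       (fun b => ⟨hg.outputsFun b⟩) a).some }⟩

end Pool.Agent.H685R2.Poly
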