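import Pool.Agent.H685R2.Poly.NPDefs
import Pool.Agent.H685R2.Poly.Comp
import Pool.Agent.H685R2.Poly.Raw
import Pool.Agent.H685R2.Poly.Eq

/-!
Transitivity of reductions, and tools for showing that a problem is in NP.
-/

namespace Pool.Agent.H685R2.Poly

open Turing

theorem Reduces.trans {P Q R : Problem} (h : Reduces P Q) (h' : Reduces Q R) : Reduces P R := by
  obtain ⟨f, ⟨hf⟩, h1⟩ := h
  obtain ⟨g, ⟨hg⟩, h2⟩ := h'
  exact ⟨fun a => g (f a), tm_comp hf hg, fun a => (h1 a).trans (h2 (f a))⟩

theorem NPHard.of_reduces {P Q : Problem} (h : NPHard P) (h' : Reduces P Q) : NPHard Q :=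
  fun L hL => (h L hL).trans h'

/-- Reductions by functions on data. -/
theorem Reduces.of_PF {P Q : Problem} (f : P.Inst → Q.Inst) {F : List Bool → List Bool}
    (hF : PF F) (h : ∀ a, F (P.enc a) = Q.enc (f a)) (h' : ∀ a, P.yes a ↔ Q.yes (f a)) :
    Reduces P Q :=
  ⟨f, hF.tm_of h, h'⟩

/-- state: mode, reversed first string, reversed second string -/
def unpairStep (s : ℕ × (List Bool × List Bool)) (b : Bool) : ℕ × (List Bool × List Bool) :=
  match s.1 with
  | 0 => if b = true then (1, s.2) else (2, s.2)
  | k + 1 =>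
      match k with
      | 0 => (0, (b :: s.2.1, s.2.2))
      | _ + 1 => (2, (s.2.1, b :: s.2.2))

/-- the inverse of `pairEnc` -/
def unpair (s : List Bool) : List Bool × List Bool :=
  ((s.foldl unpairStep (0, ([], []))).2.1.reverse, (s.foldl unpairStep (0, ([], []))).2.2.reverse)

theorem unpairStep_two (w : List Bool) : ∀ a b : List Bool,
    w.foldl unpairStep (2, (a, b)) = (2, (a, w.reverse ++ b)) := by
  induction w with
  | nil => intro a b; rfl
  | cons c w ih =>
      intro a b
      rw [List.foldl_cons]
      have : unpairStep (2, (a, b)) c = (2, (a, c :: b)) := rfl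
      rw [this, ih]
      simp

theorem unpair_fold (x w : List Bool) : ∀ a : List Bool,
    (pairEnc x w).foldl unpairStep (0, (a, [])) = (2, (x.reverse ++ a, w.reverse)) := by
  induction x with
  | nil =>
      intro a
      rw [pairEnc, List.flatMap_nil, List.nil_append, List.foldl_cons]
      have : unpairStep (0, (a, ([] : List Bool))) false = (2, (a, [])) := rfl
      rw [this, unpairStep_two]
      simp
  | cons b x ih =>
      intro a
      have e : pairEnc (b :: x) w = true :: b :: pairEnc x w := rfl
      rw [e, List.foldl_cons, List.foldl_cons]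
      have h1 : unpairStep (0, (a, ([] : List Bool))) true = (1, (a, [])) := rfl
      have h2 : unpairStep (1, (a, ([] : List Bool))) b = (0, (b :: a, [])) := rfl
      rw [h1, h2, ih]
      simp

theorem unpair_pairEnc (x w : List Bool) : unpair (pairEnc x w) = (x, w) := by
  rw [unpair, unpair_fold]
  simp

theorem PF.unpairStep : PF (fun p : (ℕ × (List Bool × List Bool)) × Bool =>
    unpairStep p.1 p.2) := by
  have h0 : PF (fun p : (ℕ × (List Bool × List Bool)) × Bool =>
      if p.2 = true then (1, p.1.2) else (2, p.1.2)) :=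
    PF.ite PF.snd' (PF.pair (PF.const 1) (PF.snd PF.fst'))
      (PF.pair (PF.const 2) (PF.snd PF.fst'))
  have h1 : PF (fun q : ((ℕ × (List Bool × List Bool)) × Bool) × ℕ =>
      match q.2 with
      | 0 => (0, (q.1.2 :: q.1.1.2.1, q.1.1.2.2))
      | _ + 1 => (2, (q.1.1.2.1, q.1.2 :: q.1.1.2.2))) :=
    PF.natCase (g := fun q : (((ℕ × (List Bool × List Bool)) × Bool) × ℕ) × ℕ =>
        (2, (q.1.1.1.2.1, q.1.1.2 :: q.1.1.1.2.2))) PF.snd'
      (PF.pair (PF.const 0) (PF.pair
        (PF.cons (PF.snd PF.fst') (PF.fst (PF.snd (PF.fst PF.fst'))))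
        (PF.snd (PF.snd (PF.fst PF.fst')))))
      (PF.pair (PF.const 2) (PF.pair (PF.fst (PF.snd (PF.fst (PF.fst PF.fst'))))
        (PF.cons (PF.snd (PF.fst PF.fst')) (PF.snd (PF.snd (PF.fst (PF.fst PF.fst')))))))
  refine PF.congr (PF.natCase (n := fun p : (ℕ × (List Bool × List Bool)) × Bool => p.1.1)
    (PF.fst PF.fst') h0 h1) fun p => ?_
  rcases p with ⟨⟨_ | _ | k, a, b⟩, c⟩ <;> rfl

theorem unpairStep_size (s : ℕ × (List Bool × List Bool)) (b : Bool) :
    dsize (unpairStep s b) ≤ dsize s + 8 := by
  have hb := dsize_bool b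
  rcases s with ⟨_ | _ | k, a, c⟩
  · cases b
    · change dsize (2, (a, c)) ≤ _
      simp only [dsize_pair, dsize_nat]
      omega
    · change dsize (1, (a, c)) ≤ _
      simp only [dsize_pair, dsize_nat]
      omega
  · change dsize (0, (b :: a, c)) ≤ _
    simp only [dsize_pair, dsize_nat, dsize_cons]
    omega
  · change dsize (2, (a, b :: c)) ≤ _
    simp only [dsize_pair, dsize_nat, dsize_cons]
    omega

theorem PF.unpair : PF unpair := by
  have h1 : PF (fun s : List Bool => s.foldl Poly.unpairStep (0, ([], []))) := by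
    refine PF.foldl (f := fun p : List Bool × ((ℕ × (List Bool × List Bool)) × Bool) =>
      Poly.unpairStep p.2.1 p.2.2) PF.id' (PF.const (0, (([] : List Bool), ([] : List Bool))))
      (PF.comp PF.unpairStep PF.snd') ⟨8 * Polynomial.X + 5, ?_⟩
    intro c l1 l2 h
    have h2 : ∀ (l : List Bool) (s : ℕ × (List Bool × List Bool)),
        dsize (l.foldl Poly.unpairStep s) ≤ dsize s + 8 * l.length := by
      intro l
      induction l with
      | nil => intro s; simp
      | cons b l ih =>
          intro s
          rw [List.foldl_cons, List.length_cons]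
          have := ih (Poly.unpairStep s b)
          have := unpairStep_size s b
          omega
    refine (h2 l1 (0, ([], []))).trans ?_
    have h4 := length_le_dsize c
    rw [h, List.length_append] at h4
    rw [← h] at h4
    have h5 : dsize ((0 : ℕ), (([] : List Bool), ([] : List Bool))) = 5 := rfl
    simp only [Polynomial.eval_add, Polynomial.eval_mul, Polynomial.eval_X,
      Polynomial.eval_ofNat]
    omega
  exact PF.pair (PF.reverse (PF.fst (PF.snd h1))) (PF.reverse (PF.snd (PF.snd h1)))

/-- Polynomial time decision procedures given by functions on data. -/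
theorem PF.tm_bool {α : Type} {ea : α → List Bool} {V : α → Bool} {F : List Bool → Bool}
    (hF : PF F) (h : ∀ a, F (ea a) = V a) :
    Nonempty (TM2ComputableInPolyTime ea Computability.encodeBool V) := by
  have h1 : PF (fun x => [F x]) := PF.cons hF (PF.const [])
  exact h1.tm_of fun a => by rw [h]; rfl

/-- Polynomial time verifiers given by functions on data. -/
theorem PF.tm_verifier {α : Type} {ea : α → List Bool} {V : α × List Bool → Bool}
    {F : List Bool × List Bool → Bool} (hF : PF F) (h : ∀ a w, F (ea a, w) = V (a, w)) :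
    Nonempty (TM2ComputableInPolyTime (fun a : α × List Bool => pairEnc (ea a.1) a.2)
      Computability.encodeBool V) :=
  PF.tm_bool (PF.comp hF PF.unpair) fun a => by
    rw [unpair_pairEnc]
    exact h a.1 a.2

end Pool.Agent.H685R2.Poly
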