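import Mathlib

/-!
Decision problems, the class NP, polynomial time reductions and NP-completeness, in terms of
Mathlib's notion of computability in polynomial time (`Turing.TM2ComputableInPolyTime`).
-/

namespace Pool.Agent.H685R2.Poly

open Turing

/-- A decision problem: a set of instances, for every instance the string of bits that represents
it, and the set of instances with answer `yes`. -/
structure Problem : Type 1 where
  /-- the instances -/
  Inst : Type
  /-- the string that represents an instance -/
  enc : Inst → List Bool
  /-- the answer for the instance is `yes` -/
  yes : Inst → Prop

/-- The decision problem for a set of strings. -/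
def Problem.ofLang (L : Set (List Bool)) : Problem where
  Inst := List Bool
  enc := id
  yes x := x ∈ L

/-- The string that represents a pair of strings: every bit of the first string is preceded by
a `1`, then follow a `0` and the second string. -/
def pairEnc (x w : List Bool) : List Bool := (x.flatMap fun b => [true, b]) ++ false :: w

/-- The problem is in NP: there are a polynomial `p` and a verifier `V`, computable in polynomial
time by a Turing machine, such that an instance has answer `yes` if and only if the verifier
accepts it together with some certificate of length at most `p` of the length of the instance. -/
def InNP (P : Problem) : Prop :=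
  ∃ (p : Polynomial ℕ) (V : P.Inst × List Bool → Bool),
    Nonempty (TM2ComputableInPolyTime (fun a : P.Inst × List Bool => pairEnc (P.enc a.1) a.2)
      Computability.encodeBool V) ∧
    ∀ a : P.Inst, P.yes a ↔ ∃ w : List Bool, w.length ≤ p.eval (P.enc a).length ∧ V (a, w) = true

/-- Polynomial time many-one reducibility. -/
def Reduces (P Q : Problem) : Prop :=
  ∃ f : P.Inst → Q.Inst, Nonempty (TM2ComputableInPolyTime P.enc Q.enc f) ∧
    ∀ a, P.yes a ↔ Q.yes (f a)

/-- Every language in NP is reducible to the problem. -/
def NPHard (Q : Problem) : Prop :=
  ∀ L : Set (List Bool), InNP (Problem.ofLang L) → Reduces (Problem.ofLang L) Q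

/-- NP-completeness. -/
def NPComplete (Q : Problem) : Prop := InNP Q ∧ NPHard Q

end Pool.Agent.H685R2.Poly
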